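import Pool.Agent.Lib.MP_bf776f_nt.CF.Per

/-! Function-field model: the ratio of a fixed point of the Carlitz exponential to a period. -/

namespace Pool.Agent.Results.MP_bf776f_nt.CarlitzFixed

open Pool.Agent.CF

theorem result (F Ω : Type) [Field F] [Fintype F] [NormedField Ω] [IsUltrametricDist Ω]
    [CompleteSpace Ω] [IsAlgClosed Ω] [Algebra F Ω] (T : Ω) (hT : 1 < ‖T‖) :
    (∃ ϱ lam : Ω, ϱ ≠ 0 ∧ ex (Fintype.card F) T ϱ = ϱ ∧
      lam ≠ 0 ∧ ex (Fintype.card F) T lam = 0) ∧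
    ∀ ϱ lam : Ω, ϱ ≠ 0 → ex (Fintype.card F) T ϱ = ϱ →
      lam ≠ 0 → ex (Fintype.card F) T lam = 0 →
      ∀ N : ℕ, N + 4 ≤ Fintype.card F → ∀ (u₀ : Ω) (u y : Fin N → Ω),
        IsAlgebraic (K F T) u₀ → (∀ k, IsAlgebraic (K F T) (u k)) →
        (∀ k, IsSeparable (Kinf F T) (y k)) → ϱ / lam ≠ u₀ + ∑ k, u k * y k := by
  refine ⟨?_, fun ϱ lam h0 h1 h2 h3 N hN u₀ u y hu₀ hu hy h => ?_⟩
  · obtain ⟨ϱ, h1, h2⟩ := exists_fix (fr_card (M := Ω) F) hT
    obtain ⟨lam, h3, h4⟩ := exists_per (fr_card (M := Ω) F) hT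
    exact ⟨ϱ, lam, h1, h2, h3, h4⟩
  · have hl := per_sep hT h3
    refine red (κ := Option (Fin N)) hT (by simp; omega) h0 h1 (u := fun o => o.elim u₀ u)
      (y := fun o => o.elim lam fun k => y k * lam) ?_ ?_ ?_
    · rintro (_ | k)
      · exact hu₀
      · exact hu k
    · rintro (_ | k)
      · exact hl
      · exact mem_separableClosure_iff.1
          (mul_mem (mem_separableClosure_iff.2 (hy k)) (mem_separableClosure_iff.2 hl))
    · rw [Fintype.sum_option, (div_eq_iff h2).1 h, add_mul, Finset.sum_mul]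
      simp only [Option.elim_none, Option.elim_some, mul_assoc]

end Pool.Agent.Results.MP_bf776f_nt.CarlitzFixed
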